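import Pool.Agent.Helper79.AL.St1

/-! # AL MODULE CG: the congruence modulo `p` -/

set_option autoImplicit false

namespace Pool.Agent.Helper98.AL

open Matrix ComplexConjugate Pool.Agent.Helper94.YG
open Pool.Agent.Helper94.YF hiding StORB
open Pool.Agent.Helper89.OS Pool.Agent.Helper89.OC Pool.Agent.Helper79.AL

private theorem sf_pi {I : Type} [Fintype I] [DecidableEq I] (Z : CentreData I) (hF : FCA Z)
    {p : ℕ} (b : ZMod Z.L) (X : PD I p 1) (hL : Lq Z b X) (c : (ZMod (p ^ 1))ˣ) (v k : I) :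
    Sf Z (X.pi c v) k = Sf Z v (X.pi c k) := by
  obtain ⟨u, -, hu⟩ := hL.pi c
  obtain ⟨π, -, hπ, -, -, hS, -⟩ := hF.perm u
  have e : ∀ i, π i = X.pi c i := by
    intro i
    by_contra hne
    have h1 := hπ i (π i)
    rw [hu i (π i), if_neg hne, if_pos rfl] at h1
    exact zero_ne_one h1
  have h := hS v k
  rw [e v, e k] at h
  unfold Sf
  rw [h]

private theorem int_sum {I : Type} (s : Finset I) (f : I → ℂ) (h : ∀ i ∈ s, IsIntegral ℤ (f i)) :
    IsIntegral ℤ (∑ i ∈ s, f i) := IsIntegral.sum _ h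

theorem hCG : StCG := by
  classical
  intro hTS hO hG hN hA I _ _ Z p _ b X Q hL hB i hi l hcase
  have hTS' := (hTS hO I p X Q hB i hi).1
  have hOB := hO I p X
  have hGL := hG I Z
  obtain ⟨-, -, z', hz', -, -, hzs⟩ := hN I Z p b X hL.lk
  have hF := hA I Z
  have hp : p.Prime := X.prime
  obtain ⟨-, -, -, -, hg2, hy1, -⟩ := Helper39.OS.hMZZ I p X
  have hXo : X.o = Z.o := hL.lk.o
  have hXd : X.d = Z.d := hL.lk.d
  have hdo : Z.d Z.o = 1 := by rw [← hXd, ← hXo]; exact X.d_o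
  set r : ℕ := (Orb X i).card with hr
  -- integrality of the vector `E`
  have hE : ∀ j : I, IsIntegral ℤ ((gX X : ℂ) * (if j ∈ Orb X i then 1 else 0) +
      ((r : ℕ) : ℂ) * X.y i * (if j = X.o then 1 else 0)) := by
    intro j
    have hint : ∀ z : ℤ, IsIntegral ℤ ((z : ℤ) : ℂ) := fun z => isIntegral_algebraMap
    have hnat : ∀ z : ℕ, IsIntegral ℤ ((z : ℕ) : ℂ) := fun z => by
      have := hint (z : ℤ)
      simpa using this
    have hif : ∀ q : Prop, ∀ [Decidable q], IsIntegral ℤ (if q then (1 : ℂ) else 0) := by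
      intro q _
      split_ifs
      · exact isIntegral_one
      · exact isIntegral_zero
    exact ((hint _).mul (hif _)).add (((hnat _).mul (hint _)).mul (hif _))
  -- the main relation for `v`
  have key : ∀ v : I, ∃ β : ℂ, IsIntegral ℤ β ∧
      (gX X : ℂ) * ∑ k ∈ Orb X i, Sf Z v k + (r : ℂ) * X.y i * Z.d v = (p : ℂ) * β := by
    intro v
    refine ⟨∑ j, z' v j * ((gX X : ℂ) * (if j ∈ Orb X i then 1 else 0) +
      ((r : ℕ) : ℂ) * X.y i * (if j = X.o then 1 else 0)),
      int_sum _ _ fun j _ => (hz' v j).mul (hE j), ?_⟩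
    have h1 : ∑ k, Sf Z v k * ((gX X : ℂ) * (if k ∈ Orb X i then 1 else 0) +
        ((r : ℕ) : ℂ) * X.y i * (if k = X.o then 1 else 0)) =
        (gX X : ℂ) * ∑ k ∈ Orb X i, Sf Z v k + (r : ℂ) * X.y i * Z.d v := by
      simp only [mul_add, Finset.sum_add_distrib]
      congr 1
      · rw [Finset.mul_sum, ← Finset.sum_filter_add_sum_filter_not Finset.univ
          (fun k => k ∈ Orb X i)]
        have h2 : ∑ k ∈ Finset.univ.filter (fun k => ¬ k ∈ Orb X i),
            Sf Z v k * ((gX X : ℂ) * (if k ∈ Orb X i then 1 else 0)) = 0 := by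
          refine Finset.sum_eq_zero fun k hk => ?_
          rw [if_neg (Finset.mem_filter.mp hk).2]
          ring
        rw [h2, add_zero]
        have h3 : Finset.univ.filter (fun k => k ∈ Orb X i) = Orb X i := by
          ext k; simp
        rw [h3]
        refine Finset.sum_congr rfl fun k hk => ?_
        rw [if_pos hk]
        ring
      · rw [Finset.sum_eq_single X.o]
        · rw [if_pos rfl, hXo, hGL.Sf_o v]
          ring
        · intro k _ hk
          rw [if_neg hk]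
          ring
        · intro h
          exact absurd (Finset.mem_univ _) h
    rw [← h1, Finset.mul_sum]
    have h4 : ∀ k, Sf Z v k = ∑ j, z' v j * X.s j k := fun k => hzs v k
    calc ∑ k, Sf Z v k * ((gX X : ℂ) * (if k ∈ Orb X i then 1 else 0) +
          ((r : ℕ) : ℂ) * X.y i * (if k = X.o then 1 else 0))
        = ∑ k, ∑ j, z' v j * (X.s j k * ((gX X : ℂ) * (if k ∈ Orb X i then 1 else 0) +
          ((r : ℕ) : ℂ) * X.y i * (if k = X.o then 1 else 0))) := by
          refine Finset.sum_congr rfl fun k _ => ?_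
          rw [h4 k, Finset.sum_mul]
          refine Finset.sum_congr rfl fun j _ => ?_
          ring
      _ = ∑ j, z' v j * ∑ k, (X.s j k * ((gX X : ℂ) * (if k ∈ Orb X i then 1 else 0) +
          ((r : ℕ) : ℂ) * X.y i * (if k = X.o then 1 else 0))) := by
          rw [Finset.sum_comm]
          refine Finset.sum_congr rfl fun j _ => ?_
          rw [Finset.mul_sum]
      _ = _ := by
          refine Finset.sum_congr rfl fun j _ => ?_
          rw [hTS' j]
          ring
  -- the sum over the orbit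
  have orb : ∀ v : I, ((∀ c, X.pi c i = i) ∨ (∀ c, X.pi c v = v)) →
      ∑ k ∈ Orb X i, Sf Z v k = (r : ℂ) * Sf Z v i := by
    intro v hv
    have h : ∀ k ∈ Orb X i, Sf Z v k = Sf Z v i := by
      intro k hk
      obtain ⟨c, rfl⟩ : ∃ c, X.pi c i = k := by
        simpa only [Orb, Finset.mem_filter, Finset.mem_univ, true_and] using hk
      rcases hv with hv | hv
      · rw [hv c]
      · rw [← sf_pi Z hF b X hL c v i, hv c]
    rw [Finset.sum_congr rfl h, Finset.sum_const, nsmul_eq_mul]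
  obtain ⟨βl, hβl, hl⟩ := key l
  obtain ⟨βo, hβo, ho⟩ := key Z.o
  rw [orb l hcase] at hl
  rw [orb Z.o (Or.inr fun c => by rw [← hXo]; exact X.pi_o c)] at ho
  have hoi : Sf Z Z.o i = Z.d i := by rw [hGL.Sf_symm, hGL.Sf_o]
  rw [hoi, hdo] at ho
  -- coprimality
  have hcard := hOB.card i
  have hp1 : 1 < p := hp.one_lt
  have hrd : r ∣ p - 1 := Dvd.intro _ hcard
  have hr0 : 0 < r := by
    rcases Nat.eq_zero_or_pos r with h0 | h0
    · exfalso
      rw [h0] at hrd
      have := Nat.eq_zero_of_zero_dvd hrd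
      omega
    · exact h0
  have hrp : ¬ p ∣ r := by
    intro h
    have h1 := Nat.le_of_dvd hr0 h
    have h2 := Nat.le_of_dvd (by omega) hrd
    omega
  have hgp : ¬ (p : ℤ) ∣ gX X := by
    intro h
    have hg0 : 0 < gX X := by unfold gX; linarith
    have h1 := Int.le_of_dvd hg0 h
    unfold gX at h1
    linarith
  have hpI : Prime (p : ℤ) := Nat.prime_iff_prime_int.mp hp
  have hcop : IsCoprime (gX X * (r : ℤ)) (p : ℤ) := by
    have h1 : ¬ (p : ℤ) ∣ gX X * (r : ℤ) := by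
      intro h
      rcases hpI.dvd_or_dvd h with h | h
      · exact hgp h
      · exact hrp (by exact_mod_cast h)
    exact ((Prime.coprime_iff_not_dvd hpI).mpr h1).symm
  obtain ⟨u, w, huw⟩ := hcop
  have hint : ∀ z : ℤ, IsIntegral ℤ ((z : ℤ) : ℂ) := fun z => isIntegral_algebraMap
  have hnat : ∀ z : ℕ, IsIntegral ℤ ((z : ℕ) : ℂ) := fun z => by
    have := hint (z : ℤ)
    simpa using this
  have hSint : IsIntegral ℤ (Sf Z l i - (Z.d l : ℂ) * Z.d i) := by
    rw [hGL.Sf_chi l i]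
    exact ((hnat _).mul (hGL.chi_int l i)).sub ((hnat _).mul (hnat _))
  refine ⟨(u : ℂ) * (βl - (Z.d l : ℂ) * βo) + (w : ℂ) * (Sf Z l i - (Z.d l : ℂ) * Z.d i),
    ((hint u).mul (hβl.sub ((hnat _).mul hβo))).add ((hint w).mul hSint), ?_⟩
  have huw' : (u : ℂ) * ((gX X : ℂ) * (r : ℂ)) + (w : ℂ) * (p : ℂ) = 1 := by
    exact_mod_cast huw
  have hmain : (gX X : ℂ) * (r : ℂ) * (Sf Z l i - (Z.d l : ℂ) * Z.d i) =
      (p : ℂ) * (βl - (Z.d l : ℂ) * βo) := by
    have e1 : (p : ℂ) * (βl - (Z.d l : ℂ) * βo) =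
        (p : ℂ) * βl - (Z.d l : ℂ) * ((p : ℂ) * βo) := by ring
    rw [e1, ← hl, ← ho]
    push_cast
    ring
  rw [hGL.Sf_symm i l]
  have e2 : Sf Z l i - (Z.d i : ℂ) * Z.d l = Sf Z l i - (Z.d l : ℂ) * Z.d i := by ring
  rw [e2]
  calc Sf Z l i - (Z.d l : ℂ) * Z.d i
      = ((u : ℂ) * ((gX X : ℂ) * (r : ℂ)) + (w : ℂ) * (p : ℂ)) *
        (Sf Z l i - (Z.d l : ℂ) * Z.d i) := by rw [huw', one_mul]
    _ = (u : ℂ) * ((gX X : ℂ) * (r : ℂ) * (Sf Z l i - (Z.d l : ℂ) * Z.d i)) +
        (w : ℂ) * (p : ℂ) * (Sf Z l i - (Z.d l : ℂ) * Z.d i) := by ring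
    _ = _ := by
        rw [hmain]
        ring

end Pool.Agent.Helper98.AL
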